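import Pool.Agent.Work.MP_47966f_an.Limit

set_option autoImplicit false

/-!
# Complementary spectra for type II factorisations of Lebesgue measure

For every sequence `(N_k)_{k≥1}` of integers `≥ 2`, let `μ = ν_1 ∗ ν_3 ∗ ν_5 ∗ ⋯` and
`ν = ν_2 ∗ ν_4 ∗ ν_6 ∗ ⋯` be the type II pair.  Then every spectrum `Λ_μ` of `μ` admits a
spectrum `Λ_ν` of `ν` with `Λ_μ ⊕ Λ_ν = ℤ`.

Idea of the proof.  For an integer `x ≠ 0` let `v(x)` be the least `k` with `N_1 ⋯ N_k ∤ x`.
Differences of elements of a spectrum of `μ` (resp. `ν`) are integers with `v` odd (resp. even).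
A back-and-forth argument builds `Λ_ν` as an increasing union of finite sets `F` with all
differences of even `v`:
* covering step: given `n`, maximise `v(n - f - a)` over `f ∈ F`, `a ∈ Λ_μ`; then `b = n - a`
  can be added to `F`, and `n = a + b`;
* mass step: every finite `F` can be enlarged so that `∑_{b ∈ F} |ν̂(ξ - b)|²` is close to `1`.
-/

namespace Pool.Agent.Results.MP_47966f_an.ComplementarySpectra

open MeasureTheory Filter Topology
open Pool.Agent.Work.MP_47966f_an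

theorem result (N : ℕ → ℕ) (hN : ∀ k, 1 ≤ k → 2 ≤ N k) :
    (∃ μ ν : Measure ℝ, IsProbabilityMeasure μ ∧ IsProbabilityMeasure ν ∧
      IsWeakLimit (oddConv N) μ ∧ IsWeakLimit (evenConv N) ν) ∧
    ∀ (μ ν : Measure ℝ) [IsProbabilityMeasure μ] [IsProbabilityMeasure ν],
      IsWeakLimit (oddConv N) μ → IsWeakLimit (evenConv N) ν →
      ∀ Λμ : Set ℝ, IsSpectrum μ Λμ →
        ∃ Λν : Set ℝ, IsSpectrum ν Λν ∧ IsDirectSumInt Λμ Λν := by
  classical
  refine ⟨?_, ?_⟩
  · obtain ⟨μ, hμ1, hμ2⟩ := exists_weakLimit hN Odd (oddConv N) (isProb_oddConv hN)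
      (charFun_oddConv hN)
    obtain ⟨ν, hν1, hν2⟩ := exists_weakLimit hN Even (evenConv N) (isProb_evenConv hN)
      (charFun_evenConv hN)
    exact ⟨μ, ν, hμ1, hν1, hμ2, hν2⟩
  intro μ ν hμp hνp hμ hν Λμ hΛμ
  obtain ⟨hcount, bas, hbas⟩ := hΛμ
  -- zero sets
  have hodd : ∀ n, ∃ k, n ≤ k ∧ ¬ Odd (k + 1) := fun n =>
    ⟨2 * n + 1, by omega, by rw [Nat.not_odd_iff_even]; exact ⟨n + 1, by ring⟩⟩
  have heven : ∀ n, ∃ k, n ≤ k ∧ ¬ Even (k + 1) := fun n =>
    ⟨2 * n, by omega, by rw [Nat.not_even_iff_odd]; exact ⟨n, rfl⟩⟩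
  have hhμ := tendsto_of_weak hN Odd (oddConv N) (isProb_oddConv hN) (charFun_oddConv hN) μ hμ
  have hhν := tendsto_of_weak hN Even (evenConv N) (isProb_evenConv hN)
    (charFun_evenConv hN) ν hν
  have hZμ : ∀ t : ℝ, charFun μ (2 * Real.pi * t) = 0 ↔
      ∃ n : ℤ, t = n ∧ n ≠ 0 ∧ Odd (val N n) := by
    intro t
    rw [← h_zero_iff hN Odd hodd hhμ t]
    simp
  have hZν : ∀ t : ℝ, charFun ν (2 * Real.pi * t) = 0 ↔
      ∃ n : ℤ, t = n ∧ n ≠ 0 ∧ Even (val N n) := by
    intro t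
    rw [← h_zero_iff hN Even heven hhν t]
    simp
  -- a base point
  obtain ⟨t₀, ht₀, -⟩ := exists_nonorthogonal μ Λμ bas hbas 0
  have hint : ∀ s ∈ Λμ, ∃ n : ℤ, s = t₀ + n := by
    intro s hs
    by_cases hst : t₀ = s
    · exact ⟨0, by simp [hst]⟩
    · have h1 := orthogonal_of_basis μ Λμ bas hbas ht₀ hs hst
      obtain ⟨n, hn, -⟩ := (hZμ _).1 h1
      exact ⟨n, by linarith⟩
  let L : Set ℤ := {n : ℤ | t₀ + n ∈ Λμ}
  have hL : ∀ a ∈ L, ∀ a' ∈ L, a ≠ a' → ¬ Even (val N (a - a')) := by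
    intro a ha a' ha' haa
    have hne : t₀ + (a' : ℝ) ≠ t₀ + a := by
      intro h
      apply haa
      have : (a : ℝ) = a' := by linarith
      exact_mod_cast this
    have h1 := orthogonal_of_basis μ Λμ bas hbas ha' ha hne
    obtain ⟨n, hn, hn0, hnodd⟩ := (hZμ _).1 h1
    have h2 : n = a - a' := by
      have : (n : ℝ) = a - a' := by rw [← hn]; ring
      exact_mod_cast this
    rw [Nat.not_even_iff_odd, ← h2]
    exact hnodd
  have hmax : ∀ c, c ∉ L → ∃ a ∈ L, Even (val N (c - a)) := by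
    intro c hc
    obtain ⟨t, ht, hne⟩ := exists_nonorthogonal μ Λμ bas hbas (t₀ + c)
    obtain ⟨a, ha⟩ := hint t ht
    have haL : a ∈ L := by
      change t₀ + (a : ℝ) ∈ Λμ
      rw [← ha]; exact ht
    refine ⟨a, haL, ?_⟩
    by_contra hodd'
    rw [Nat.not_even_iff_odd] at hodd'
    apply hne
    rw [hZμ]
    refine ⟨c - a, by rw [ha]; push_cast; ring, ?_, hodd'⟩
    intro h0
    apply hc
    have : c = a := by omega
    rw [this]; exact haL
  obtain ⟨B, hB1, hB2, hB3⟩ := exists_complement hN hhν hL hmax t₀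
  let emb : ℤ → ℝ := fun b => (b : ℝ) - t₀
  have hemb : Function.Injective emb := by
    intro x y hxy
    have : (x : ℝ) = y := by simpa [emb] using hxy
    exact_mod_cast this
  refine ⟨emb '' B, ⟨B.to_countable.image _, ?_⟩, ?_, ?_⟩
  · -- `emb '' B` is a spectrum of `ν`
    apply hilbertBasis_of_mass
    · rintro _ ⟨b, hb, rfl⟩ _ ⟨b', hb', rfl⟩ hne
      rw [hZν]
      have hbb : b' ≠ b := fun h => hne (by rw [h])
      refine ⟨b' - b, by simp [emb], sub_ne_zero.mpr hbb, hB1 b' hb' b hb hbb⟩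
    · intro ξ ε hε
      obtain ⟨F, hFB, hF⟩ := hB3 ξ ε hε
      refine ⟨F.image emb, ?_, ?_⟩
      · intro b hb
        obtain ⟨c, hc, rfl⟩ := Finset.mem_image.mp hb
        exact ⟨c, hFB c hc, rfl⟩
      · rw [Finset.sum_image (fun x _ y _ h => hemb h)]
        have : ∀ b : ℤ, (ξ : ℝ) - emb b = ξ + t₀ - b := by
          intro b; simp only [emb]; ring
        simp_rw [this]
        exact hF
  · rintro a ha _ ⟨b, hb, rfl⟩
    obtain ⟨n, hn⟩ := hint a ha
    exact ⟨n + b, by rw [hn]; simp only [emb]; push_cast; ring⟩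
  · intro n
    obtain ⟨b, hb, hbL⟩ := hB2 n
    refine ⟨(t₀ + ((n - b : ℤ) : ℝ), emb b), ⟨hbL, ⟨b, hb, rfl⟩, ?_⟩, ?_⟩
    · simp only [emb]; push_cast; ring
    · rintro ⟨p1, p2⟩ ⟨hp1, ⟨b', hb', hb'e⟩, hp3⟩
      simp only at hp1 hb'e hp3
      obtain ⟨a', ha'⟩ := hint p1 hp1
      have ha'L : a' ∈ L := by
        change t₀ + (a' : ℝ) ∈ Λμ
        rw [← ha']; exact hp1
      have hsum : a' + b' = n := by
        have : (a' : ℝ) + b' = n := by
          rw [← hp3, ← hb'e, ha']; simp only [emb]; ring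
        exact_mod_cast this
      have haa : a' = n - b := by
        by_contra hne
        have h1 := hL a' ha'L (n - b) hbL hne
        apply h1
        have h2 : a' - (n - b) = b - b' := by omega
        rw [h2]
        exact hB1 b hb b' hb' (by omega)
      have hbb : b' = b := by omega
      rw [Prod.mk.injEq]
      exact ⟨by rw [ha', haa], by rw [← hb'e, hbb]⟩

end Pool.Agent.Results.MP_47966f_an.ComplementarySpectra
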